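import Mathlib
import Pool.Agent.H578R3.SingDefs
import Pool.Agent.H462SN.Reduction

/-!
# Singular matrix tuples are not a null cone, for any linear algebraic group

For all `n, m ≥ 3`, every linear algebraic group `G` over `ℂ` (Zariski closed subgroup of some
`GL_N(ℂ)`, not necessarily reductive, not necessarily connected) and every rational
representation `ρ` of `G` on `V = Mat_n(ℂ)^m`, the (analytic) null cone of `ρ` differs from
`SING_{n,m}`.
-/

set_option autoImplicit false

namespace Pool.Agent.Results.MP_296aa8_al.NoNullCone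

open Pool.Agent.H578R3.Sing Matrix

/-- For all `n, m ≥ 3`, for every linear algebraic group `G` over `ℂ` and every rational
representation `ρ` of `G` on `V = Mat_n^m`, the null cone `{v | 0 ∈ closure (G • v)}` is not
equal to `SING_{n,m}`. -/
theorem result {m n : ℕ} (hm : 3 ≤ m) (hn : 3 ≤ n) {N : ℕ} (G : Subgroup (GL (Fin N) ℂ))
    (hG : IsZariskiClosed G) (ρ : G →* (Tup m n ≃ₗ[ℂ] Tup m n)) (hρ : IsRegular ρ) :
    nullCone ρ ≠ SING m n :=
  H462SN.nullCone_ne_SING hm hn hG ρ hρ

end Pool.Agent.Results.MP_296aa8_al.NoNullCone
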